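import Pool.Agent.H71.ASF.Stmts

/-!
# Project ASF, module WE0
-/

namespace ASF

universe u

namespace WE0

theorem core {A : Type u} [NonUnitalNonAssocRing A] [Alt A] [NT A] {B : AddSubgroup A}
    (hB : Null B)
    (hX : ∀ a ∈ B, ∀ b ∈ B, ∀ c ∈ B, ∀ x y z : A, XX a b c x y z = 0) (w : A → A)
    (hw : ∀ a ∈ B, ∀ b ∈ B, ∀ c ∈ B, dl a c (w b) = - dl a b (w c)) :
    ∀ a ∈ B, ∀ b ∈ B, ∀ c ∈ B, ∀ d ∈ B, ∀ e ∈ B, ∀ y z : A,
      asc (dl a b (w c)) (dl d e y) z = 0 := by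
  have key : ∀ e ∈ B, ∀ y z : A, ∀ a ∈ B, ∀ b ∈ B, ∀ c ∈ B, ∀ d ∈ B,
      asc (dl a b (w c)) (cm d (cm e y)) z = 0 := by
    intro e he y z
    have s12 : ∀ a b c d : A, asc (dl b a (w c)) (cm d (cm e y)) z =
        - asc (dl a b (w c)) (cm d (cm e y)) z := by
      intro a b c d
      rw [dl_swap a b, asc_neg1]
    have s23 : ∀ a ∈ B, ∀ b ∈ B, ∀ c ∈ B, ∀ d : A, asc (dl a c (w b)) (cm d (cm e y)) z =
        - asc (dl a b (w c)) (cm d (cm e y)) z := by
      intro a ha b hb c hc d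
      rw [hw a ha b hb c hc, asc_neg1]
    have rel : ∀ a ∈ B, ∀ b ∈ B, ∀ c ∈ B, ∀ d : A,
        asc (dl a b (w d)) (cm c (cm e y)) z + asc (dl b c (w d)) (cm a (cm e y)) z +
        asc (dl c a (w d)) (cm b (cm e y)) z = 0 := by
      intro a ha b hb c hc d
      exact hX a ha b hb c hc (w d) (cm e y) z
    have s34 : ∀ a ∈ B, ∀ b ∈ B, ∀ c ∈ B, ∀ d ∈ B, asc (dl a b (w c)) (cm d (cm e y)) z =
        - asc (dl a b (w d)) (cm c (cm e y)) z := by
      intro a ha b hb c hc d hd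
      have r1 := rel a ha b hb c hc d
      have r2 := rel a ha b hb d hd c
      have t1 := s23 b hb c hc d hd a
      have t2 := s23 d hd c hc a ha b
      have t3 := s12 c d a b
      have t4 := s23 c hc a ha d hd b
      linear_combination (norm := abel) r1 + r2 - t1 - t2 + t3 - t4
    intro a ha b hb c hc d hd
    have r1 := rel a ha b hb c hc d
    have q1 := s34 b hb c hc d hd a ha
    have q2 := s23 b hb a ha c hc d
    have q3 := s12 a b c d
    have q4 := s34 c hc a ha d hd b hb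
    have q5 := s12 a c b d
    have q6 := s23 a ha b hb c hc d
    have q7 := s34 a ha b hb d hd c hc
    apply c3
    linear_combination (norm := abel) -r1 + q7 + q1 - q2 + q3 + q4 - q5 + q6
  intro a ha b hb c hc d hd e he y z
  have h1 := key e he y z a ha b hb c hc d hd
  have h2 := key d hd y z a ha b hb c hc e he
  have h3 : cm d e = 0 := by rw [cm, hB d hd e he, hB e he d hd, sub_zero]
  have h4 : asc (dl a b (w c)) (cm d (cm e y) - cm e (cm d y)) z = 0 := by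
    rw [asc_sub2, h1, h2, sub_zero]
  rw [cmcm h3, asc_neg2, asc_nsmul2, neg_eq_zero] at h4
  exact c6 h4

end WE0

theorem we0 (hWX0 : WX0Stmt.{u}) : WE0Stmt.{u} := by
  intro A _ _ _ B hB b1 h1 b2 h2 b3 h3 b4 h4 b5 h5 x y z
  have hX : ∀ a ∈ B, ∀ b ∈ B, ∀ c ∈ B, ∀ x y z : A, XX a b c x y z = 0 :=
    fun a ha b hb c hc x y z => hWX0 A a b c (hB.t ha hb hc) x y z
  have N := hB.n
  constructor
  · rw [← dl_mulr (N b1 h1 b2 h2) (N b2 h2 b1 h1) (N b3 h3 b1 h1)]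
    refine WE0.core N hX (fun b => x * b) ?_ b1 h1 b2 h2 b3 h3 b4 h4 b5 h5 y z
    intro a ha b hb c hc
    rw [dl_mulr (N a ha c hc) (N c hc a ha) (N b hb a ha),
      dl_mulr (N a ha b hb) (N b hb a ha) (N c hc a ha),
      dlb_s23 (N a ha b hb) (N a ha c hc) (N b hb c hc) (N c hc b hb)]
  · rw [← dl_mull (N b1 h1 b2 h2) (N b2 h2 b1 h1) (N b3 h3 b1 h1)]
    refine WE0.core N hX (fun b => b * x) ?_ b1 h1 b2 h2 b3 h3 b4 h4 b5 h5 y z
    intro a ha b hb c hc
    rw [dl_mull (N a ha c hc) (N c hc a ha) (N b hb a ha),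
      dl_mull (N a ha b hb) (N b hb a ha) (N c hc a ha),
      bdl_s23 (N b hb a ha) (N c hc a ha) (N b hb c hc) (N c hc b hb)]

end ASF
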