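import Pool.Agent.H71.ASF.Stmts

/-!
# Project ASF, module WFS
-/

namespace ASF

universe u

theorem wfs : WFSStmt.{u} := by
  intro A _ _ _ B hB hV
  -- the formulas for arbitrary labels
  have key : ∀ b1 ∈ B, ∀ b2 ∈ B, ∀ b3 ∈ B, ∀ b4 ∈ B, ∀ x y a : A,
      FF b1 b2 b3 b4 y x a = - FF b1 b2 b3 b4 x y a ∧
      FF b1 b2 b3 b4 x y a + FF b1 b2 b3 b4 y a x + FF b1 b2 b3 b4 a x y = 0 ∧
      (a * dl b1 b2 x) * dl b3 b4 y = FF b1 b2 b3 b4 x y a ∧
      dl b1 b2 x * (dl b3 b4 y * a) = - FF b1 b2 b3 b4 x y a ∧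
      (dl b1 b2 x * a) * dl b3 b4 y = - FF b1 b2 b3 b4 a y x ∧
      dl b1 b2 x * (a * dl b3 b4 y) = FF b1 b2 b3 b4 x a y := by
    intro b1 h1 b2 h2 b3 h3 b4 h4
    have hD := dl_isDer (hB b1 h1 b2 h2) (hB b2 h2 b1 h1)
    have hE := dl_isDer (hB b3 h3 b4 h4) (hB b4 h4 b3 h3)
    have hpq : ∀ x y, dl b1 b2 x * dl b3 b4 y = 0 := hV b1 h1 b2 h2 b3 h3 b4 h4
    have ap_q : ∀ x y a, (a * dl b1 b2 x) * dl b3 b4 y = FF b1 b2 b3 b4 x y a := by
      intro x y a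
      rw [FF, asc_cyc a (dl b1 b2 x) (dl b3 b4 y), asc, hpq, mul_zero, sub_zero]
    have p_qa : ∀ x y a, dl b1 b2 x * (dl b3 b4 y * a) = - FF b1 b2 b3 b4 x y a := by
      intro x y a
      rw [FF, asc, hpq, zero_mul, zero_sub, neg_neg]
    have pa_q : ∀ x y a, (dl b1 b2 x * a) * dl b3 b4 y = - FF b1 b2 b3 b4 a y x := by
      intro x y a
      have h := hpq (x * a) y
      rw [hD.mul, add_mul, ap_q a y x] at h
      exact eq_neg_of_add_eq_zero_left h
    have p_aq : ∀ x y a, dl b1 b2 x * (a * dl b3 b4 y) = FF b1 b2 b3 b4 x a y := by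
      intro x y a
      have h := hpq x (a * y)
      rw [hE.mul, mul_add, p_qa x a y, neg_add_eq_zero] at h
      exact h.symm
    have rel : ∀ x y a, FF b1 b2 b3 b4 x y a = FF b1 b2 b3 b4 a y x + FF b1 b2 b3 b4 x a y := by
      intro x y a
      have h1 : asc (dl b1 b2 x) a (dl b3 b4 y) =
          - FF b1 b2 b3 b4 a y x - FF b1 b2 b3 b4 x a y := by
        rw [asc, pa_q, p_aq]
      have h2 : asc (dl b1 b2 x) a (dl b3 b4 y) = - FF b1 b2 b3 b4 x y a := by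
        rw [FF, asc_s23 (dl b1 b2 x) (dl b3 b4 y) a]
      linear_combination (norm := abel) h2 - h1
    have skew : ∀ x y a, FF b1 b2 b3 b4 y x a = - FF b1 b2 b3 b4 x y a := by
      intro x y a
      have r1 := rel a x y
      have r2 := rel a y x
      linear_combination (norm := abel) -r1 - r2
    intro x y a
    refine ⟨skew x y a, ?_, ap_q x y a, p_qa x y a, pa_q x y a, p_aq x y a⟩
    have r := rel x y a
    have s1 := skew a y x
    have s2 := skew x a y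
    linear_combination (norm := abel) r + s1 + s2
  intro b1 h1 b2 h2 b3 h3 b4 h4
  have k := key b1 h1 b2 h2 b3 h3 b4 h4
  refine ⟨fun x y => asc_isDer _ _ (hV b1 h1 b2 h2 b3 h3 b4 h4 x y)
    (hV b3 h3 b4 h4 b1 h1 b2 h2 y x), fun x y a => (k x y a).1, fun x y a => (k x y a).2.1,
    ?_, fun x y a => (k x y a).2.2.1, fun x y a => (k x y a).2.2.2.1,
    fun x y a => (k x y a).2.2.2.2.1, fun x y a => (k x y a).2.2.2.2.2⟩
  intro x y a
  have e : FF b3 b4 b1 b2 x y a = - FF b1 b2 b3 b4 y x a := by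
    rw [FF, FF, asc_s12 (dl b1 b2 y) (dl b3 b4 x) a]
  rw [e, (k x y a).1, neg_neg]

end ASF
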