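import Pool.Agent.H71.ASF.Stmts

/-!
# Project ASF, module WVV
-/

namespace ASF

universe u

theorem wvv (hCTL : CTLStmt.{u}) (hWCO : WCOStmt.{u}) (hWJO : WJOStmt.{u}) : WVVStmt.{u} := by
  intro A _ _ _ B hB b1 h1 b2 h2 b3 h3 b4 h4 x y
  refine hCTL A A B (fun a b c d => dl a b x * dl c d y) (fun x h => NT.two x h)
    (fun x h => NT.three x h) ?_ ?_ ?_ ?_ ?_ ?_ b1 h1 b2 h2 b3 h3 b4 h4
  · intro a _ a' _ b _ c _ d _
    simp only [dl_add1, add_mul]
  · intro a _ b _ c _ c' _ d _
    simp only [dl_add1, mul_add]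
  · intro a _ b _ c _ d _
    simp only [dl_swap a b, neg_mul]
  · intro a _ b _ c _ d _
    simp only [dl_swap c d, mul_neg]
  · intro a ha b hb c hc d hd
    have e1 := hWCO A B hB a ha b hb c hc d hd x y
    have e2 := hWJO A B hB a ha b hb c hc d hd x y
    simp only [cm] at e1
    simp only [jo] at e2
    apply c2
    linear_combination (norm := abel) e1 + e2
  · intro a ha b hb
    exact dlmul (hB.n a ha a ha) (hB.n a ha b hb) (hB.n b hb a ha) x y

end ASF
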